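import Mathlib
import Pool.Agent.Work.MP_ae2f77_co.Main

/-!
The least number of colours that can avoid monochromatic sumsets `X + X` (repeated summands allowed) of infinite sets `X` of
positive integers is three.

The lower bound (every colouring with two colours has an infinite `X` with `X + X` monochromatic) is the new part; the upper
bound is a colouring with three colours.
-/

set_option autoImplicit false

open scoped Pointwise

namespace Pool.Agent.Results.MP_ae2f77_co.SumsetNumber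

/-- The set `S` of positive integers is monochromatic for the colouring `c`. -/
def Mono {r : ℕ} (c : ℕ+ → Fin r) (S : Set ℕ+) : Prop := ∃ k, ∀ s ∈ S, c s = k

/-- The number `r` is avoiding: some colouring of the positive integers with `r` colours has no infinite set `X` with
`X + X` monochromatic. -/
def Avoiding (r : ℕ) : Prop := ∃ c : ℕ+ → Fin r, ∀ X : Set ℕ+, X.Infinite → ¬ Mono c (X + X)

/-- a colouring with three colours: `k` is the number of binary digits and `e = 2 ^ k - n` -/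
def col (n : ℕ) : Fin 3 :=
  if Even n.size then (if 2 ^ n.size - n < 4 * n.size then 2 else 0)
  else (if 2 ^ n.size - n < n.size then 0 else 1)

lemma size_eq {n k : ℕ} (h1 : 2 ^ k ≤ n) (h2 : n < 2 ^ (k + 1)) : n.size = k + 1 := by
  have h3 := Nat.lt_size.2 h1
  have h4 := Nat.size_le.2 h2
  omega

lemma exists_size {n : ℕ} (h : 0 < n) : ∃ k, n.size = k + 1 ∧ 2 ^ k ≤ n ∧ n < 2 ^ (k + 1) := by
  have h0 : 0 < n.size := Nat.size_pos.2 h
  obtain ⟨k, hk⟩ : ∃ k, n.size = k + 1 := ⟨n.size - 1, by omega⟩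
  refine ⟨k, hk, Nat.lt_size.1 (by omega), ?_⟩
  rw [← hk]
  exact Nat.lt_size_self n

lemma big_pow {y k : ℕ} (hk : y + 10 ≤ k) : y + 4 * (k + 1) ≤ 2 ^ k := by
  have h : ∀ k, 10 ≤ k → 5 * k + 4 ≤ 2 ^ k := by
    intro k hk
    induction k, hk using Nat.le_induction with
    | base => norm_num
    | succ k hk ih => rw [pow_succ]; omega
  have := h k (by omega)
  omega

lemma col_spec (X : Set ℕ+) (hX : X.Infinite) :
    ∃ x ∈ X, ∃ y ∈ X, col (x + y : ℕ) ≠ col (x + x : ℕ) := by
  have hlarge : ∀ N : ℕ, ∃ x ∈ X, N < (x : ℕ) := by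
    intro N
    obtain ⟨x, hx, hN⟩ := hX.exists_gt (⟨N + 1, Nat.succ_pos N⟩ : ℕ+)
    refine ⟨x, hx, ?_⟩
    have h1 : N + 1 < (x : ℕ) := hN
    omega
  by_cases hA : ∃ B : ℕ, ∀ N : ℕ, ∃ x ∈ X, N < (x : ℕ) ∧ 2 ^ (x : ℕ).size - (x : ℕ) ≤ B
  · obtain ⟨B, hB⟩ := hA
    obtain ⟨y, hy, hyB⟩ := hlarge B
    obtain ⟨x, hx, hxN, hxB⟩ := hB (2 ^ ((y : ℕ) + 2 * B + 10))
    refine ⟨x, hx, y, hy, ?_⟩
    obtain ⟨k, hk, h1, h2⟩ := exists_size x.pos
    rw [hk] at hxB
    have hkK : (y : ℕ) + 2 * B + 10 ≤ k := by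
      have h3 : 2 ^ ((y : ℕ) + 2 * B + 10) < 2 ^ (k + 1) := hxN.trans h2
      have h4 := (Nat.pow_lt_pow_iff_right (by norm_num : 1 < 2)).1 h3
      omega
    have h3 := big_pow (y := y) (k := k) (by omega)
    have h4 : 2 ^ (k + 1) = 2 * 2 ^ k := by rw [pow_succ]; ring
    have h5 : 2 ^ (k + 2) = 4 * 2 ^ k := by rw [pow_add]; ring
    have e1 : ((x : ℕ) + y).size = k + 2 := size_eq (k := k + 1) (by omega) (by
      show _ < 2 ^ (k + 2)
      omega)
    have e2 : ((x : ℕ) + x).size = k + 2 := size_eq (k := k + 1) (by omega) (by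
      show _ < 2 ^ (k + 2)
      omega)
    unfold col
    rw [e1, e2, h5]
    have c1 : ¬ (4 * 2 ^ k - ((x : ℕ) + y) < 4 * (k + 2)) := by
      have := big_pow (y := y) (k := k) (by omega)
      omega
    have c2 : ¬ (4 * 2 ^ k - ((x : ℕ) + y) < k + 2) := by omega
    have c3 : 4 * 2 ^ k - ((x : ℕ) + x) < 4 * (k + 2) := by omega
    have c4 : 4 * 2 ^ k - ((x : ℕ) + x) < k + 2 := by omega
    rw [if_neg c1, if_neg c2, if_pos c3, if_pos c4]
    split_ifs <;> decide
  · push Not at hA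
    obtain ⟨y, hy, -⟩ := hlarge 0
    obtain ⟨N, hN⟩ := hA y
    obtain ⟨x, hx, hxN⟩ := hlarge (N + 2 ^ ((y : ℕ) + 10))
    have hxB := hN x hx (lt_of_le_of_lt (Nat.le_add_right _ _) hxN)
    have hxN' : 2 ^ ((y : ℕ) + 10) < (x : ℕ) := lt_of_le_of_lt (Nat.le_add_left _ _) hxN
    refine ⟨x, hx, y, hy, ?_⟩
    obtain ⟨k, hk, h1, h2⟩ := exists_size x.pos
    rw [hk] at hxB
    have hkK : (y : ℕ) + 10 ≤ k := by
      have h3 : 2 ^ ((y : ℕ) + 10) < 2 ^ (k + 1) := hxN'.trans h2
      have h4 := (Nat.pow_lt_pow_iff_right (by norm_num : 1 < 2)).1 h3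
      omega
    have h3 := big_pow (y := y) (k := k) (by omega)
    have h4 : 2 ^ (k + 1) = 2 * 2 ^ k := by rw [pow_succ]; ring
    have h5 : 2 ^ (k + 2) = 4 * 2 ^ k := by rw [pow_add]; ring
    have e1 : ((x : ℕ) + y).size = k + 1 := size_eq (by omega) (by omega)
    have e2 : ((x : ℕ) + x).size = k + 2 := size_eq (k := k + 1) (by omega) (by
      show _ < 2 ^ (k + 2)
      omega)
    unfold col
    rw [e1, e2, h4, h5]
    have hy0 := y.pos
    by_cases hev : Even (k + 1)
    · have hev' : ¬ Even (k + 2) := by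
        rw [show k + 2 = (k + 1) + 1 from rfl, Nat.even_add_one]
        exact fun h => h hev
      rw [if_pos hev, if_neg hev']
      by_cases c1 : 2 * 2 ^ k - ((x : ℕ) + y) < 4 * (k + 1)
      · rw [if_pos c1]
        split_ifs <;> decide
      · rw [if_neg c1, if_neg (by omega)]
        decide
    · have hev' : Even (k + 2) := by
        rw [show k + 2 = (k + 1) + 1 from rfl, Nat.even_add_one]
        exact hev
      rw [if_neg hev, if_pos hev']
      by_cases c1 : 2 * 2 ^ k - ((x : ℕ) + y) < k + 1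
      · rw [if_pos c1, if_pos (by omega)]
        decide
      · rw [if_neg c1]
        split_ifs <;> decide

/-- The least number of colours for which some colouring of the positive integers has no infinite set `X` with `X + X`
monochromatic is three. -/
theorem result : IsLeast {r : ℕ | Avoiding r} 3 := by
  constructor
  · refine ⟨fun n => col n, fun X hX => ?_⟩
    rintro ⟨k, hk⟩
    obtain ⟨x, hx, y, hy, hne⟩ := col_spec X hX
    apply hne
    have h1 : col (x + y : ℕ) = k := hk (x + y) (Set.add_mem_add hx hy)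
    have h2 : col (x + x : ℕ) = k := hk (x + x) (Set.add_mem_add hx hx)
    rw [h1, h2]
  · rintro r ⟨c, hc⟩
    by_contra hr
    push Not at hr
    have hinf : (Set.univ : Set ℕ+).Infinite := Set.infinite_univ
    have hr0 : 0 < r := Fin.pos (c 1)
    classical
    refine Pool.Agent.Work.MP_ae2f77_co.no_bad
      (fun n => if h : 0 < n then decide ((c ⟨n, h⟩ : ℕ) = 0) else true) ?_
    intro X hX
    have hX' : {x : ℕ+ | (x : ℕ) ∈ X}.Infinite := by
      have h1 : (X \ {0}).Infinite := hX.sdiff (Set.finite_singleton 0)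
      refine Set.Infinite.of_image (fun x : ℕ+ => (x : ℕ)) (h1.mono ?_)
      rintro x ⟨hx, hx0⟩
      have hpos : 0 < x := Nat.pos_of_ne_zero hx0
      exact ⟨⟨x, hpos⟩, hx, rfl⟩
    by_contra hcon
    push Not at hcon
    refine hc _ hX' ?_
    obtain ⟨x₀, hx₀⟩ := hX'.nonempty
    refine ⟨c (x₀ + x₀), ?_⟩
    rintro _ ⟨x, hx, y, hy, rfl⟩
    have h1 := hcon (x : ℕ) hx y hy x₀ hx₀ x₀ hx₀
    have hp1 : 0 < (x : ℕ) + y := Nat.add_pos_left x.pos _
    have hp2 : 0 < (x₀ : ℕ) + x₀ := Nat.add_pos_left x₀.pos _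
    rw [dif_pos hp1, dif_pos hp2] at h1
    have e1 : (⟨(x : ℕ) + y, hp1⟩ : ℕ+) = x + y := rfl
    have e2 : (⟨(x₀ : ℕ) + x₀, hp2⟩ : ℕ+) = x₀ + x₀ := rfl
    rw [e1, e2, decide_eq_decide] at h1
    apply Fin.ext
    have h2 := (c (x + y)).2
    have h3 := (c (x₀ + x₀)).2
    show (c (x + y) : ℕ) = (c (x₀ + x₀) : ℕ)
    omega

end Pool.Agent.Results.MP_ae2f77_co.SumsetNumber
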